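import Pool.Agent.X145.Clue.Seq

/-!
# Clue profile against noise sensitivity: a non-degenerate monotone counterexample

Tribes together with one more, huge tribe on many further fair bits: the sequence is monotone, noise
sensitive, non-degenerate and every coordinate is pivotal for some input, but for every `δ` in `(0,1)`
the clue profile at `δ` is of smaller order than the mean clue of `B^δ`.
-/

set_option autoImplicit false
open Filter Topology
open Pool.Agent.X145.Clue

namespace Pool.Agent.Results.MP_b26fee_pr.PaddedTribes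

/-- The statement of Q1: for every noise sensitive sequence of monotone functions and every `δ` in
`(0,1)`, `E[clue(f_n | B^δ)] / cp_{f_n}(δ) → 0`. -/
def Q1 : Prop :=
  ∀ F : MonotoneSequence, NoiseSensitive F → ∀ δ : ℝ, 0 < δ → δ < 1 →
    Tendsto (fun n => meanClue (F.p n) (F.f n) δ / clueProfile (F.p n) (F.f n) δ) atTop (𝓝 0)

/-- **Main theorem.** There is a sequence of monotone functions of fair bits, noise sensitive, with
variances at least `1/4`, all of whose coordinates are pivotal for some input, such that for every `δ`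
in `(0,1)` the clue profile at `δ` is eventually positive and `E[clue(f_n | B^δ)] / cp_{f_n}(δ) → ∞`.
In particular the statement of Q1 is false. -/
theorem result :
    (∃ F : MonotoneSequence, NoiseSensitive F ∧ (∀ n, F.p n = 1 / 2) ∧
      (∀ n, 1 / 4 ≤ vari (F.p n) (F.f n)) ∧
      (∀ n, ∀ v : F.V n, ∃ ω : F.V n → Bool,
        F.f n (Function.update ω v true) ≠ F.f n (Function.update ω v false)) ∧
      ∀ δ : ℝ, 0 < δ → δ < 1 →
        (∀ᶠ n in atTop, 0 < clueProfile (F.p n) (F.f n) δ) ∧
        Tendsto (fun n => meanClue (F.p n) (F.f n) δ / clueProfile (F.p n) (F.f n) δ) atTop atTop) ∧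
    ¬ Q1 := by
  have hmain : ∀ δ : ℝ, 0 < δ → δ < 1 →
        (∀ᶠ n in atTop, 0 < clueProfile (seq.p n) (seq.f n) δ) ∧
        Tendsto (fun n => meanClue (seq.p n) (seq.f n) δ / clueProfile (seq.p n) (seq.f n) δ)
          atTop atTop := by
    intro δ h0 h1
    have h := ratio_bound δ h0 h1
    refine ⟨h.mono fun n hn => hn.1, ?_⟩
    have ht : Tendsto (fun n : ℕ => ((n : ℝ) + 2) ^ 2 / 2) atTop atTop := by
      refine Tendsto.atTop_div_const (by norm_num) ?_
      exact (tendsto_pow_atTop (by norm_num)).comp
        (tendsto_atTop_add_const_right _ _ tendsto_natCast_atTop_atTop)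
    refine tendsto_atTop_mono' _ ?_ ht
    filter_upwards [h] with n hn
    have h3 : ((n : ℝ) + 2) ^ 2 / 2 ≤ meanClue (1 / 2) (fn n) δ / clueProfile (1 / 2) (fn n) δ := by
      rw [le_div_iff₀ hn.1, mul_comm]
      exact hn.2
    exact h3
  refine ⟨⟨seq, seq_noise, fun _ => rfl, vari_fn_low, seq_pivotal, hmain⟩, fun H => ?_⟩
  have h1 := H seq seq_noise (1 / 2) (by norm_num) (by norm_num)
  have h2 := (hmain (1 / 2) (by norm_num) (by norm_num)).2
  exact not_tendsto_nhds_of_tendsto_atTop h2 0 h1

end Pool.Agent.Results.MP_b26fee_pr.PaddedTribes
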